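import Pool.Agent.Work.MP_ab000d_co.Main

set_option autoImplicit false

namespace Pool.Agent.Results.MP_ab000d_co.AtomicityDecidable

open Pool.Agent.Work.MP_ab000d_co

/-- The atomicity problem for ordered forests under the consecutive order is decidable: the
finite sets of ordered forests are exactly the sets given by lists of codes, and the predicate
of a list `B` of codes which says that the class of ordered forests avoiding the forests coded
by `B` is atomic is computable (decided by a Turing machine). -/
theorem result :
    (∀ S : Set OForest, S.Finite ↔ ∃ B, forestsOf B = S) ∧
      ComputablePred fun B : List (ℕ × List (ℕ × ℕ)) => Atomic (avoid (forestsOf B)) :=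
  Pool.Agent.Work.MP_ab000d_co.main

end Pool.Agent.Results.MP_ab000d_co.AtomicityDecidable
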